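import Mathlib

/-!
# Bounded harmonic functions on abelian-by-cyclic groups

Let `A` be an abelian normal subgroup of `G` with infinite cyclic quotient. For every finite
symmetric generating set the bounded harmonic functions are constant: the suprema of a bounded
harmonic function over the cosets of `A` form a bounded subharmonic function of the integers, so
they are all equal, and Harnack's inequality may be used inside `A`.
-/

set_option autoImplicit false

open Finset

namespace Pool.Agent.Y889.AR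

/-- the square root of the absolute value -/
noncomputable def u (k : ℤ) : ℝ := √(k.natAbs : ℝ)

lemma u_nonneg (k : ℤ) : 0 ≤ u k := Real.sqrt_nonneg _

lemma u_lt {k b : ℤ} (h : b.natAbs ≤ k.natAbs) (hk : k ≠ 0) (hb : b ≠ 0) :
    u (k + b) + u (k - b) < 2 * u k := by
  unfold u
  have e1 : ((k + b).natAbs : ℝ) + ((k - b).natAbs : ℝ) = 2 * (k.natAbs : ℝ) := by
    have : (k + b).natAbs + (k - b).natAbs = 2 * k.natAbs := by omega
    exact_mod_cast this
  have e2 : ((k + b).natAbs : ℝ) ≠ ((k - b).natAbs : ℝ) := by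
    have : (k + b).natAbs ≠ (k - b).natAbs := by omega
    exact_mod_cast this
  have h1 := Real.sq_sqrt (Nat.cast_nonneg (α := ℝ) (k + b).natAbs)
  have h2 := Real.sq_sqrt (Nat.cast_nonneg (α := ℝ) (k - b).natAbs)
  have h3 := Real.sq_sqrt (Nat.cast_nonneg (α := ℝ) k.natAbs)
  have p0 := Real.sqrt_nonneg ((k + b).natAbs : ℝ)
  have r0 := Real.sqrt_nonneg ((k - b).natAbs : ℝ)
  have t0 := Real.sqrt_nonneg (k.natAbs : ℝ)
  set p := √((k + b).natAbs : ℝ)
  set r := √((k - b).natAbs : ℝ)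
  set t := √(k.natAbs : ℝ)
  have hpr : p ≠ r := by
    intro h
    apply e2
    rw [← h1, ← h2, h]
  have h4 : 0 < (p - r) ^ 2 := by
    have : p - r ≠ 0 := sub_ne_zero.2 hpr
    positivity
  by_contra hcon
  push Not at hcon
  nlinarith

lemma u_le {k b : ℤ} (h : b.natAbs ≤ k.natAbs) (hk : k ≠ 0) :
    u (k + b) + u (k - b) ≤ 2 * u k := by
  by_cases hb : b = 0
  · rw [hb, add_zero, sub_zero]
    linarith
  · exact (u_lt h hk hb).le

variable {G : Type} [Group G]

section sub

variable (S : Finset G) (s : G → ℤ) (hmul : ∀ x y, s (x * y) = s x + s y)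
  (hsurj : ∀ k, ∃ g, s g = k) (hS : ∀ x ∈ S, x⁻¹ ∈ S)
  (hcl : Subgroup.closure (S : Set G) = ⊤)

include hmul in
lemma s_one : s 1 = 0 := by
  have := hmul 1 1
  rw [mul_one] at this
  omega

include hmul in
lemma s_inv (x : G) : s x⁻¹ = - s x := by
  have := hmul x x⁻¹
  rw [mul_inv_cancel, s_one s hmul] at this
  omega

include hmul hsurj hcl in
lemma exists_ne : ∃ x ∈ S, s x ≠ 0 := by
  by_contra hcon
  push Not at hcon
  obtain ⟨g, hg⟩ := hsurj 1
  have h1 : ∀ g ∈ Subgroup.closure (S : Set G), s g = 0 := by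
    intro g hg
    induction hg using Subgroup.closure_induction with
    | mem x hx => exact hcon x hx
    | one => exact s_one s hmul
    | mul x y _ _ hx hy => rw [hmul, hx, hy, add_zero]
    | inv x _ hx => rw [s_inv s hmul, hx, neg_zero]
  have h2 := h1 g (by rw [hcl]; exact Subgroup.mem_top g)
  omega

/-- a bounded subharmonic function of the integers attains its maximum -/
lemma exists_max (hmul : ∀ x y, s (x * y) = s x + s y) (hS : ∀ x ∈ S, x⁻¹ ∈ S)
    (hne : ∃ x ∈ S, s x ≠ 0) (m : ℤ → ℝ) (C : ℝ) (hb : ∀ k, |m k| ≤ C)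
    (hsub : ∀ k, (S.card : ℝ) * m k ≤ ∑ x ∈ S, m (k + s x)) :
    ∃ j0, ∀ k, m k ≤ m j0 := by
  classical
  set L : ℕ := ∑ x ∈ S, (s x).natAbs with hL
  have hLx : ∀ x ∈ S, (s x).natAbs ≤ L := fun x hx =>
    Finset.single_le_sum (f := fun x => (s x).natAbs) (fun _ _ => Nat.zero_le _) hx
  obtain ⟨j0, -, hj0⟩ := Finset.exists_max_image (Finset.Icc (-(L : ℤ)) L) m
    ⟨0, by rw [Finset.mem_Icc]; omega⟩
  refine ⟨j0, fun k => ?_⟩
  by_contra hcon
  push Not at hcon
  obtain ⟨ε, hε, hεk⟩ : ∃ ε : ℝ, 0 < ε ∧ ε * u k < m k - m j0 := by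
    have h0 := u_nonneg k
    refine ⟨(m k - m j0) / (2 * (u k + 1)), div_pos (by linarith) (by linarith), ?_⟩
    rw [div_mul_eq_mul_div, div_lt_iff₀ (by linarith)]
    nlinarith
  set v : ℤ → ℝ := fun j => m j - ε * u j with hv
  obtain ⟨R, hR⟩ := exists_nat_gt (((C - v k) / ε) ^ 2)
  have hfar : ∀ j : ℤ, R ≤ j.natAbs → v j < v k := by
    intro j hj
    have h1 : (C - v k) / ε < u j := by
      unfold u
      apply Real.lt_sqrt_of_sq_lt
      exact hR.trans_le (by exact_mod_cast hj)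
    rw [div_lt_iff₀ hε] at h1
    have h2 := (abs_le.1 (hb j)).2
    simp only [hv] at h1 ⊢
    linarith
  obtain ⟨j1, -, hj1⟩ := Finset.exists_max_image (Finset.Icc (-((max R k.natAbs : ℕ) : ℤ))
    ((max R k.natAbs : ℕ) : ℤ)) v ⟨0, by rw [Finset.mem_Icc]; omega⟩
  have hk1 : v k ≤ v j1 := by
    apply hj1
    rw [Finset.mem_Icc]
    omega
  have hmax : ∀ j, v j ≤ v j1 := by
    intro j
    by_cases hj : R ≤ j.natAbs
    · exact (hfar j hj).le.trans hk1
    · apply hj1
      rw [Finset.mem_Icc]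
      omega
  by_cases hj : j1.natAbs ≤ L
  · have h1 : m j1 ≤ m j0 := by
      apply hj0
      rw [Finset.mem_Icc]
      omega
    have h2 := mul_nonneg hε.le (u_nonneg j1)
    simp only [hv] at hk1
    linarith
  · push Not at hj
    have hj10 : j1 ≠ 0 := by
      rintro rfl
      simp at hj
    have h1 : ∑ x ∈ S, m (j1 + s x) ≤ ∑ x ∈ S, (m j1 + ε * (u (j1 + s x) - u j1)) := by
      apply Finset.sum_le_sum
      intro x _
      have := hmax (j1 + s x)
      simp only [hv] at this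
      linarith
    have h2 := (hsub j1).trans h1
    rw [Finset.sum_add_distrib, Finset.sum_const, nsmul_eq_mul, ← Finset.mul_sum] at h2
    have h3 : 0 ≤ ∑ x ∈ S, (u (j1 + s x) - u j1) := by
      by_contra hneg
      push Not at hneg
      nlinarith
    have h4 : ∑ x ∈ S, u (j1 + s x) = ∑ x ∈ S, u (j1 - s x) := by
      apply Finset.sum_nbij' (fun x => x⁻¹) (fun x => x⁻¹)
      · exact hS
      · exact hS
      · intro x _
        exact inv_inv x
      · intro x _
        exact inv_inv x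
      · intro x _
        rw [s_inv s hmul, sub_neg_eq_add]
    have h5 : ∑ x ∈ S, (u (j1 + s x) + u (j1 - s x)) < ∑ x ∈ S, 2 * u j1 := by
      obtain ⟨x, hx, hx0⟩ := hne
      exact Finset.sum_lt_sum (fun x hx => u_le ((hLx x hx).trans hj.le) hj10)
        ⟨x, hx, u_lt ((hLx x hx).trans hj.le) hj10 hx0⟩
    rw [Finset.sum_add_distrib, ← h4, ← Finset.mul_sum] at h5
    rw [Finset.sum_sub_distrib] at h3
    linarith

include hmul hsurj hS hcl in
/-- bounded subharmonic functions of the integers are constant -/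
lemma subharm (m : ℤ → ℝ) (C : ℝ) (hb : ∀ k, |m k| ≤ C)
    (hsub : ∀ k, (S.card : ℝ) * m k ≤ ∑ x ∈ S, m (k + s x)) : ∀ k l, m k = m l := by
  obtain ⟨j0, hj0⟩ := exists_max S s hmul hS (exists_ne S s hmul hsurj hcl) m C hb hsub
  have hstep : ∀ x ∈ S, ∀ k, m k = m j0 → m (k + s x) = m j0 := by
    intro x hx k hk
    by_contra hne
    have h1 : m (k + s x) < m j0 := lt_of_le_of_ne (hj0 _) hne
    have h2 : ∑ x ∈ S, m (k + s x) < ∑ x ∈ S, m j0 :=
      Finset.sum_lt_sum (fun y _ => hj0 _) ⟨x, hx, h1⟩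
    have h3 := hsub k
    rw [Finset.sum_const, nsmul_eq_mul] at h2
    rw [hk] at h3
    linarith
  have hall : ∀ g ∈ Subgroup.closure (S : Set G), (∀ k, m k = m j0 → m (k + s g) = m j0) ∧
      (∀ k, m k = m j0 → m (k - s g) = m j0) := by
    intro g hg
    induction hg using Subgroup.closure_induction with
    | mem x hx =>
      refine ⟨hstep x hx, fun k hk => ?_⟩
      have := hstep x⁻¹ (hS x hx) k hk
      rwa [s_inv s hmul, ← sub_eq_add_neg] at this
    | one =>
      rw [s_one s hmul]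
      exact ⟨fun k hk => by rwa [add_zero], fun k hk => by rwa [sub_zero]⟩
    | mul x y _ _ hx hy =>
      rw [hmul]
      refine ⟨fun k hk => ?_, fun k hk => ?_⟩
      · rw [← add_assoc]
        exact hy.1 _ (hx.1 _ hk)
      · rw [← sub_sub]
        exact hy.2 _ (hx.2 _ hk)
    | inv x _ hx =>
      rw [s_inv s hmul]
      exact ⟨fun k hk => by rw [← sub_eq_add_neg]; exact hx.2 k hk,
        fun k hk => by rw [sub_neg_eq_add]; exact hx.1 k hk⟩
  have h0 : ∀ k, m k = m j0 := by
    intro k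
    obtain ⟨g, hg⟩ := hsurj (k - j0)
    have := (hall g (by rw [hcl]; exact Subgroup.mem_top g)).1 j0 rfl
    rwa [hg, add_sub_cancel] at this
  intro k l
  rw [h0 k, h0 l]

include hS hcl in
/-- Harnack's inequality -/
lemma harnack (d : G → ℝ) (hd0 : ∀ g, 0 ≤ d g)
    (hd : ∀ g, ∑ x ∈ S, d (g * x) ≤ (S.card : ℝ) * d g) (y : G) :
    ∃ K : ℝ, 0 ≤ K ∧ ∀ g, d (g * y) ≤ K * d g := by
  have hmem : ∀ x ∈ S, ∃ K : ℝ, 0 ≤ K ∧ ∀ g, d (g * x) ≤ K * d g := by
    intro x hx
    refine ⟨S.card, Nat.cast_nonneg _, fun g => le_trans ?_ (hd g)⟩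
    exact Finset.single_le_sum (f := fun x => d (g * x)) (fun _ _ => hd0 _) hx
  have hall : ∀ y ∈ Subgroup.closure (S : Set G), (∃ K : ℝ, 0 ≤ K ∧ ∀ g, d (g * y) ≤ K * d g) ∧
      (∃ K : ℝ, 0 ≤ K ∧ ∀ g, d (g * y⁻¹) ≤ K * d g) := by
    intro y hy
    induction hy using Subgroup.closure_induction with
    | mem x hx => exact ⟨hmem x hx, hmem _ (hS x hx)⟩
    | one =>
      refine ⟨⟨1, zero_le_one, fun g => ?_⟩, ⟨1, zero_le_one, fun g => ?_⟩⟩
      · rw [mul_one, one_mul]
      · rw [inv_one, mul_one, one_mul]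
    | mul x y _ _ hx hy =>
      obtain ⟨⟨K1, hK1, h1⟩, ⟨K2, hK2, h2⟩⟩ := hx
      obtain ⟨⟨K3, hK3, h3⟩, ⟨K4, hK4, h4⟩⟩ := hy
      refine ⟨⟨K3 * K1, mul_nonneg hK3 hK1, fun g => ?_⟩,
        ⟨K2 * K4, mul_nonneg hK2 hK4, fun g => ?_⟩⟩
      · rw [← mul_assoc, mul_assoc K3]
        exact (h3 _).trans (mul_le_mul_of_nonneg_left (h1 g) hK3)
      · rw [mul_inv_rev, ← mul_assoc, mul_assoc K2]
        exact (h2 _).trans (mul_le_mul_of_nonneg_left (h4 g) hK2)
    | inv x _ hx =>
      refine ⟨hx.2, ?_⟩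
      rw [inv_inv]
      exact hx.1
  exact (hall y (by rw [hcl]; exact Subgroup.mem_top y)).1

end sub

/-- `f` is bounded and harmonic for the simple random walk of `S` -/
def BH (S : Finset G) (f : G → ℝ) : Prop :=
  (∃ C : ℝ, ∀ g, |f g| ≤ C) ∧ ∀ g, (S.card : ℝ) * f g = ∑ x ∈ S, f (g * x)

/-- `p` is a period of all bounded harmonic functions -/
def Per (S : Finset G) (p : G) : Prop := ∀ f : G → ℝ, BH S f → ∀ g, f (p * g) = f g

lemma BH.left {S : Finset G} {f : G → ℝ} (hf : BH S f) (x : G) : BH S (fun g => f (x * g)) := by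
  obtain ⟨⟨C, hC⟩, h⟩ := hf
  refine ⟨⟨C, fun g => hC _⟩, fun g => ?_⟩
  rw [h]
  simp only [mul_assoc]

lemma per_one (S : Finset G) : Per S (1 : G) := fun f _ g => by rw [one_mul]

lemma per_mul {S : Finset G} {p r : G} (hp : Per S p) (hr : Per S r) : Per S (p * r) := by
  intro f hf g
  rw [mul_assoc, hp f hf, hr f hf]

lemma per_conj {S : Finset G} {p : G} (hp : Per S p) (x : G) : Per S (x * p * x⁻¹) := by
  intro f hf g
  have h := hp _ (hf.left x) (x⁻¹ * g)
  simp only [mul_assoc, mul_inv_cancel_left] at h ⊢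
  exact h

lemma per_right {S : Finset G} {p : G} (hp : Per S p) {f : G → ℝ} (hf : BH S f) (x : G) :
    f (x * p) = f x := by
  have h := per_conj hp x f hf x
  rwa [inv_mul_cancel_right] at h

lemma per_pow {S : Finset G} {p : G} (hp : Per S p) (y : G) (j : ℕ) :
    ∃ p', Per S p' ∧ (y * p) ^ j = y ^ j * p' := by
  induction j with
  | zero => exact ⟨1, per_one S, by simp⟩
  | succ j ih =>
    obtain ⟨p', hp', h⟩ := ih
    refine ⟨y⁻¹ * p' * y * p, per_mul ?_ hp, ?_⟩
    · have := per_conj hp' y⁻¹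
      rwa [inv_inv] at this
    · rw [pow_succ, h, pow_succ]
      simp only [mul_assoc, mul_inv_cancel_left]

/-- bounded harmonic functions are invariant under the elements which have finitely many conjugates
under the kernel modulo periods -/
lemma diff_le (q : G →* Multiplicative ℤ) (hq : Function.Surjective q) (S : Finset G)
    (hS : ∀ x ∈ S, x⁻¹ ∈ S) (hcl : Subgroup.closure (S : Set G) = ⊤) (f : G → ℝ) (hbh : BH S f)
    (a : G) (F : Finset G)
    (hF : ∀ g, q g = 1 → ∃ y ∈ F, ∃ p, Per S p ∧ g⁻¹ * a * g = y * p) (g : G) :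
    f (a * g) ≤ f g := by
  obtain ⟨⟨C, hb⟩, hf⟩ := id hbh
  set s : G → ℤ := fun g => Multiplicative.toAdd (q g) with hs
  have hmul : ∀ x y, s (x * y) = s x + s y := fun x y => by
    simp only [hs, map_mul, toAdd_mul]
  have hsurj : ∀ k, ∃ g, s g = k := fun k => by
    obtain ⟨g, hg⟩ := hq (Multiplicative.ofAdd k)
    exact ⟨g, by simp only [hs, hg, toAdd_ofAdd]⟩
  have hs0 : ∀ x, s x = 0 → q x = 1 := fun x hx => by
    have : Multiplicative.toAdd (q x) = Multiplicative.toAdd (1 : Multiplicative ℤ) := hx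
    exact Multiplicative.toAdd.injective this
  have hcard : 0 < (S.card : ℝ) := by
    obtain ⟨x, hx, -⟩ := exists_ne S s hmul hsurj hcl
    exact_mod_cast Finset.card_pos.2 ⟨x, hx⟩
  set h : G → ℝ := fun g => f (a * g) - f g with hh
  have hhb : ∀ g, |h g| ≤ 2 * C := by
    intro g
    have h1 := abs_le.1 (hb (a * g))
    have h2 := abs_le.1 (hb g)
    rw [abs_le]
    simp only [hh]
    constructor <;> linarith
  have hhh : ∀ g, (S.card : ℝ) * h g = ∑ x ∈ S, h (g * x) := by
    intro g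
    simp only [hh]
    rw [mul_sub, hf (a * g), hf g, ← Finset.sum_sub_distrib]
    apply Finset.sum_congr rfl
    intro x _
    rw [mul_assoc]
  have hhBH : BH S h := ⟨⟨2 * C, hhb⟩, hhh⟩
  -- the suprema over the cosets
  set m : ℤ → ℝ := fun k => ⨆ g : {g // s g = k}, h g with hm
  have hne : ∀ k, Nonempty {g // s g = k} := fun k => by
    obtain ⟨g, hg⟩ := hsurj k
    exact ⟨⟨g, hg⟩⟩
  have hbdd : ∀ k, BddAbove (Set.range fun g : {g // s g = k} => h g) := by
    intro k
    refine ⟨2 * C, ?_⟩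
    rintro _ ⟨g, rfl⟩
    exact (abs_le.1 (hhb g)).2
  have hle : ∀ g, h g ≤ m (s g) := fun g => le_ciSup (hbdd (s g)) (⟨g, rfl⟩ : {g' // s g' = s g})
  have hmb : ∀ k, |m k| ≤ 2 * C := by
    intro k
    have := hne k
    rw [abs_le]
    constructor
    · obtain ⟨g, hg⟩ := hsurj k
      have h1 := hle g
      rw [hg] at h1
      exact (abs_le.1 (hhb g)).1.trans h1
    · exact ciSup_le fun g => (abs_le.1 (hhb g)).2
  have hsub : ∀ k, (S.card : ℝ) * m k ≤ ∑ x ∈ S, m (k + s x) := by
    intro k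
    have := hne k
    rw [← le_div_iff₀' hcard]
    apply ciSup_le
    rintro ⟨g, hg⟩
    rw [le_div_iff₀' hcard, hhh]
    apply Finset.sum_le_sum
    intro x _
    have := hle (g * x)
    rwa [hmul, hg] at this
  have hconst := subharm S s hmul hsurj hS hcl m (2 * C) hmb hsub
  set M : ℝ := m 0 with hM
  have hhM : ∀ g, h g ≤ M := fun g => (hle g).trans_eq (hconst _ _)
  have hM0 : M ≤ 0 := by
    by_contra hpos
    push Not at hpos
    obtain ⟨n, hn⟩ := exists_nat_gt (2 * C / M)
    rw [div_lt_iff₀ hpos] at hn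
    have hH : ∀ (y : G) (j : ℕ), ∃ K : ℝ, 0 ≤ K ∧ ∀ g, M - h (g * y ^ j) ≤ K * (M - h g) := by
      intro y j
      refine harnack S hS hcl (fun g => M - h g) (fun g => sub_nonneg.2 (hhM g)) ?_ (y ^ j)
      intro g
      rw [Finset.sum_sub_distrib, Finset.sum_const, nsmul_eq_mul, ← hhh, ← mul_sub]
    choose K hK0 hK using hH
    set Kt : ℝ := ∑ j ∈ Finset.range n, ∑ y ∈ F, K y j with hKt
    have hKt0 : 0 ≤ Kt := Finset.sum_nonneg fun j _ => Finset.sum_nonneg fun y _ => hK0 y j
    obtain ⟨δ, hδ, hδK⟩ : ∃ δ : ℝ, 0 < δ ∧ δ * Kt < n * M - 2 * C := by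
      refine ⟨(n * M - 2 * C) / (2 * (Kt + 1)), div_pos (by linarith) (by linarith), ?_⟩
      rw [div_mul_eq_mul_div, div_lt_iff₀ (by linarith)]
      nlinarith
    have := hne 0
    obtain ⟨⟨g0, hg0⟩, hlt⟩ := exists_lt_of_lt_ciSup (show M - δ < ⨆ g : {g // s g = 0}, h g by
      have : (⨆ g : {g // s g = 0}, h g) = M := rfl
      rw [this]
      linarith)
    have hlt' : M - δ < h g0 := hlt
    have hq0 := hs0 g0 hg0
    obtain ⟨y, hy, p, hp, hyp⟩ := hF g0 hq0
    have hterm : ∀ j, M - (∑ y ∈ F, K y j) * δ ≤ h (a ^ j * g0) := by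
      intro j
      obtain ⟨p', hp', hpj⟩ := per_pow hp y j
      have e : a ^ j * g0 = g0 * y ^ j * p' := by
        have e1 : (g0⁻¹ * a * g0) ^ j = g0⁻¹ * a ^ j * g0 := by
          have := conj_pow (i := j) (a := g0⁻¹) (b := a)
          rwa [inv_inv] at this
        have e2 : g0 * (g0⁻¹ * a * g0) ^ j = a ^ j * g0 := by
          rw [e1]
          simp only [mul_assoc, mul_inv_cancel_left]
        rw [← e2, hyp, hpj, mul_assoc]
      have h1 := hK y j g0
      have h3 : K y j ≤ ∑ y ∈ F, K y j :=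
        Finset.single_le_sum (f := fun y => K y j) (fun y _ => hK0 y j) hy
      have h2 : K y j * (M - h g0) ≤ (∑ y ∈ F, K y j) * δ :=
        mul_le_mul h3 (by linarith) (sub_nonneg.2 (hhM g0))
          (Finset.sum_nonneg fun y _ => hK0 y j)
      rw [e, per_right hp' hhBH]
      linarith
    have htel : ∑ j ∈ Finset.range n, h (a ^ j * g0) = f (a ^ n * g0) - f g0 := by
      have h1 := Finset.sum_range_sub (fun j : ℕ => f (a ^ j * g0)) n
      rw [pow_zero, one_mul] at h1
      rw [← h1]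
      apply Finset.sum_congr rfl
      intro j _
      simp only [hh]
      rw [pow_succ', mul_assoc]
    have hsum : (n : ℝ) * M - δ * Kt ≤ f (a ^ n * g0) - f g0 := by
      rw [← htel, hKt, Finset.mul_sum]
      calc (n : ℝ) * M - ∑ j ∈ Finset.range n, δ * ∑ y ∈ F, K y j =
          ∑ j ∈ Finset.range n, (M - (∑ y ∈ F, K y j) * δ) := by
            rw [Finset.sum_sub_distrib, Finset.sum_const, Finset.card_range, nsmul_eq_mul]
            congr 1
            exact Finset.sum_congr rfl fun j _ => mul_comm _ _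
        _ ≤ _ := Finset.sum_le_sum fun j _ => hterm j
    have h1 := (abs_le.1 (hb (a ^ n * g0))).2
    have h2 := (abs_le.1 (hb g0)).1
    linarith
  have h1 := hhM g
  simp only [hh] at h1
  linarith

/-- elements with finitely many conjugates under the kernel modulo periods are periods -/
lemma per_of_fin (q : G →* Multiplicative ℤ) (hq : Function.Surjective q) (S : Finset G)
    (hS : ∀ x ∈ S, x⁻¹ ∈ S) (hcl : Subgroup.closure (S : Set G) = ⊤)
    (a : G) (F : Finset G)
    (hF : ∀ g, q g = 1 → ∃ y ∈ F, ∃ p, Per S p ∧ g⁻¹ * a * g = y * p) : Per S a := by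
  intro f hf g
  have h1 := diff_le q hq S hS hcl f hf a F hF g
  have hneg : BH S (fun g => -f g) := by
    obtain ⟨⟨C, hC⟩, h⟩ := hf
    refine ⟨⟨C, fun g => by rw [abs_neg]; exact hC g⟩, fun g => ?_⟩
    rw [mul_neg, h, Finset.sum_neg_distrib]
  have h2 := diff_le q hq S hS hcl _ hneg a F hF g
  linarith

/-- the group `N` has a finite ascending chain of subgroups, from the trivial one to `N`, such that
each element of a term has finitely many `N`-conjugates modulo the previous term -/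
def FCNil (N : Subgroup G) : Prop :=
  ∃ (r : ℕ) (Z : ℕ → Subgroup G), Z 0 = ⊥ ∧ Z r = N ∧ ∀ i < r, Z (i + 1) ≤ N ∧
    ∀ a ∈ Z (i + 1), ∃ F : Finset G, ∀ g ∈ N, ∃ y ∈ F, ∃ p ∈ Z i, g⁻¹ * a * g = y * p

/-- Let `N` be a normal subgroup of `G` with infinite cyclic quotient, FC-nilpotent. Then the
bounded harmonic functions for the simple random walk of every finite symmetric generating set are
constant. -/
theorem liouville (q : G →* Multiplicative ℤ) (hq : Function.Surjective q)
    (hN : FCNil q.ker) (S : Finset G) (hS : ∀ x ∈ S, x⁻¹ ∈ S)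
    (hcl : Subgroup.closure (S : Set G) = ⊤) (f : G → ℝ) (hbh : BH S f) (g g' : G) :
    f g = f g' := by
  obtain ⟨r, Z, hZ0, hZr, hZ⟩ := hN
  have hper : ∀ i ≤ r, ∀ a ∈ Z i, Per S a := by
    intro i
    induction i with
    | zero =>
      intro _ a ha
      rw [hZ0, Subgroup.mem_bot] at ha
      rw [ha]
      exact per_one S
    | succ i ih =>
      intro hi a ha
      obtain ⟨-, h2⟩ := hZ i (by omega)
      obtain ⟨F, hF⟩ := h2 a ha
      refine per_of_fin q hq S hS hcl a F fun g hg => ?_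
      obtain ⟨y, hy, p, hp, h⟩ := hF g hg
      exact ⟨y, hy, p, ih (by omega) p hp, h⟩
  have hinv : ∀ a, q a = 1 → ∀ g, f (a * g) = f g := by
    intro a ha g
    exact hper r le_rfl a (by rw [hZr]; exact ha) f hbh g
  obtain ⟨⟨C, hb⟩, hf⟩ := id hbh
  set s : G → ℤ := fun g => Multiplicative.toAdd (q g) with hs
  have hmul : ∀ x y, s (x * y) = s x + s y := fun x y => by
    simp only [hs, map_mul, toAdd_mul]
  have hsurj : ∀ k, ∃ g, s g = k := fun k => by
    obtain ⟨g, hg⟩ := hq (Multiplicative.ofAdd k)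
    exact ⟨g, by simp only [hs, hg, toAdd_ofAdd]⟩
  choose σ hσ using hsurj
  have hfσ : ∀ g, f g = f (σ (s g)) := by
    intro g
    have h1 : q (g * (σ (s g))⁻¹) = 1 := by
      have h2 : q (σ (s g)) = q g := Multiplicative.toAdd.injective (hσ (s g))
      rw [map_mul, map_inv, h2, mul_inv_cancel]
    have h3 := hinv _ h1 (σ (s g))
    rw [inv_mul_cancel_right] at h3
    exact h3
  have hsurj : ∀ k, ∃ g, s g = k := fun k => ⟨σ k, hσ k⟩
  have hconst := subharm S s hmul hsurj hS hcl (fun k => f (σ k)) C (fun k => hb _) (by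
    intro k
    rw [hf]
    apply le_of_eq
    apply Finset.sum_congr rfl
    intro x _
    rw [hfσ (σ k * x), hmul, hσ])
  rw [hfσ g, hfσ g']
  exact hconst _ _

/-- groups all of whose conjugacy classes are finite -/
lemma fcNil_of_fc (N : Subgroup G)
    (h : ∀ a ∈ N, {x : G | ∃ g ∈ N, x = g⁻¹ * a * g}.Finite) : FCNil N := by
  refine ⟨1, fun i => if i = 0 then ⊥ else N, by simp, by simp, fun i hi => ?_⟩
  have hi0 : i = 0 := by omega
  subst hi0
  simp only [zero_add, one_ne_zero, if_false, if_true]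
  refine ⟨le_rfl, fun a ha => ⟨(h a ha).toFinset, fun g hg => ?_⟩⟩
  refine ⟨g⁻¹ * a * g, (h a ha).mem_toFinset.2 ⟨g, hg, rfl⟩, 1, Subgroup.mem_bot.2 rfl, ?_⟩
  rw [mul_one]

/-- nilpotent groups -/
lemma fcNil_of_nilpotent (N : Subgroup G) (hN : Group.IsNilpotent N) : FCNil N := by
  obtain ⟨r, hr⟩ := hN
  refine ⟨r, fun i => (Subgroup.upperCentralSeries N i).map N.subtype, ?_, ?_, fun i _ => ?_⟩
  · simp
  · show (Subgroup.upperCentralSeries N r).map N.subtype = N
    rw [hr, ← MonoidHom.range_eq_map, Subgroup.range_subtype]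
  · refine ⟨Subgroup.map_subtype_le _, fun a ha => ?_⟩
    obtain ⟨b, hb, rfl⟩ := Subgroup.mem_map.1 ha
    refine ⟨{(b : G)}, fun g hg => ⟨b, Finset.mem_singleton_self _, (b : G)⁻¹ * (g⁻¹ * b * g), ?_,
      ?_⟩⟩
    · have h1 := (Subgroup.mem_upperCentralSeries_succ_iff).1 (inv_mem hb) (⟨g, hg⟩⁻¹ : N)
      refine Subgroup.mem_map.2 ⟨_, h1, ?_⟩
      simp [commutatorElement_def, mul_assoc]
    · rw [mul_inv_cancel_left]
      rfl

end Pool.Agent.Y889.AR
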