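import Pool.Agent.H582AR.Wreath
import Pool.Agent.Y889.AR.Liou

/-!
# Continuum many two-generated central extensions of the wreath product (after P. Hall)

For every set `A` of natural numbers the lamps get an additional central coordinate which counts, for
every `n ∈ A`, the pairs of lamps at distance `n + 1`.
-/

set_option autoImplicit false

open LaurentPolynomial Pool.Agent.H582AR

namespace Pool.Agent.Y889.AR

open Classical in
/-- the correlations of two lamp configurations at the distances `n + 1`, `n ∈ A` -/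
noncomputable def B (A : Set ℕ) (F F' : LaurentPolynomial ℤ) : ℕ → ℤ :=
  fun n => if n ∈ A then (invert F * F').coeff ((n : ℤ) + 1) else 0

lemma B_add_left (A : Set ℕ) (F G F' : LaurentPolynomial ℤ) :
    B A (F + G) F' = B A F F' + B A G F' := by
  funext n
  simp only [B, Pi.add_apply, map_add, add_mul]
  split_ifs
  · rfl
  · rw [add_zero]

lemma B_add_right (A : Set ℕ) (F F' G : LaurentPolynomial ℤ) :
    B A F (F' + G) = B A F F' + B A F G := by
  funext n
  simp only [B, Pi.add_apply, mul_add]
  split_ifs
  · rfl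
  · rw [add_zero]

lemma B_zero_left (A : Set ℕ) (F : LaurentPolynomial ℤ) : B A 0 F = 0 := by
  funext n
  simp [B]

lemma B_zero_right (A : Set ℕ) (F : LaurentPolynomial ℤ) : B A F 0 = 0 := by
  funext n
  simp [B]

lemma B_neg_left (A : Set ℕ) (F F' : LaurentPolynomial ℤ) : B A (-F) F' = -B A F F' := by
  have h := B_add_left A F (-F) F'
  rw [add_neg_cancel, B_zero_left] at h
  exact (neg_eq_of_add_eq_zero_right h.symm).symm

lemma B_shift (A : Set ℕ) (s : ℤ) (F F' : LaurentPolynomial ℤ) :
    B A (T s * F) (T s * F') = B A F F' := by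
  have e : invert (T s * F) * (T s * F') = invert F * F' := by
    rw [map_mul, invert_T]
    calc T (-s) * invert F * (T s * F') = (T (-s) * T s) * (invert F * F') := by ring
      _ = invert F * F' := by rw [← T_add, neg_add_cancel, T_zero, one_mul]
  unfold B
  rw [e]

/-- Elements of the extension: lamps `F`, central part `c` and cursor `s`. -/
@[ext] structure E (A : Set ℕ) where
  /-- the lamps -/
  F : LaurentPolynomial ℤ
  /-- the central part -/
  c : ℕ → ℤ
  /-- the cursor -/
  s : ℤ

namespace E

variable {A : Set ℕ}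

noncomputable instance : Mul (E A) :=
  ⟨fun a b => ⟨a.F + T a.s * b.F, a.c + b.c + B A a.F (T a.s * b.F), a.s + b.s⟩⟩
noncomputable instance : One (E A) := ⟨⟨0, 0, 0⟩⟩
noncomputable instance : Inv (E A) := ⟨fun a => ⟨-(T (-a.s) * a.F), -a.c + B A a.F a.F, -a.s⟩⟩

@[simp] theorem mul_F (a b : E A) : (a * b).F = a.F + T a.s * b.F := rfl
@[simp] theorem mul_c (a b : E A) : (a * b).c = a.c + b.c + B A a.F (T a.s * b.F) := rfl
@[simp] theorem mul_s (a b : E A) : (a * b).s = a.s + b.s := rfl
@[simp] theorem one_F : (1 : E A).F = 0 := rfl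
@[simp] theorem one_c : (1 : E A).c = 0 := rfl
@[simp] theorem one_s : (1 : E A).s = 0 := rfl
@[simp] theorem inv_F (a : E A) : (a⁻¹).F = -(T (-a.s) * a.F) := rfl
@[simp] theorem inv_c (a : E A) : (a⁻¹).c = -a.c + B A a.F a.F := rfl
@[simp] theorem inv_s (a : E A) : (a⁻¹).s = -a.s := rfl

noncomputable instance : Group (E A) where
  mul_assoc a b c := by
    ext1
    · simp only [mul_F, mul_s, T_add]; ring
    · simp only [mul_c, mul_F, mul_s, mul_add, B_add_left, B_add_right]
      have e : T (a.s + b.s) * c.F = T a.s * (T b.s * c.F) := by rw [T_add]; ring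
      rw [e, B_shift]
      abel
    · simp only [mul_s]; ring
  one_mul a := by
    ext1
    · simp [T_zero]
    · simp [B_zero_left]
    · simp
  mul_one a := by
    ext1
    · simp
    · simp [B_zero_right]
    · simp
  inv_mul_cancel a := by
    ext1
    · simp
    · simp only [mul_c, inv_c, inv_F, inv_s, B_neg_left, B_shift, one_c]
      abel
    · simp

/-- moving the cursor -/
noncomputable def t (A : Set ℕ) : E A := ⟨0, 0, 1⟩

/-- changing the lamp at the cursor -/
noncomputable def a (A : Set ℕ) : E A := ⟨1, 0, 0⟩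

theorem t_pow (k : ℕ) : (t A) ^ k = ⟨0, 0, k⟩ := by
  induction k with
  | zero =>
    rw [pow_zero]
    rfl
  | succ k ih =>
    rw [pow_succ, ih]
    ext1 <;> simp [t, B_zero_left]

theorem conj_a (k : ℕ) : (t A) ^ k * a A * ((t A) ^ k)⁻¹ = ⟨T k, 0, 0⟩ := by
  rw [t_pow]
  ext1
  · simp [a]
  · simp [a, B_zero_left, B_zero_right]
  · simp [a]

theorem commute_iff (n : ℕ) :
    Commute (a A) ((t A) ^ (n + 1) * a A * ((t A) ^ (n + 1))⁻¹) ↔ n ∉ A := by
  rw [conj_a]
  constructor
  · intro h hn
    have h1 := congrFun (congrArg E.c h.eq) n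
    simp only [a, mul_c, B, T_zero, one_mul, map_one, mul_one, invert_T, Pi.add_apply, if_pos hn,
      T_apply] at h1
    rw [if_pos (by push_cast; ring), if_neg (by push_cast; omega)] at h1
    simp at h1
  · intro hn
    ext1
    · simp [a, T_zero, add_comm]
    · funext m
      simp only [a, mul_c, B, T_zero, one_mul, map_one, mul_one, invert_T, Pi.add_apply,
        T_apply]
      by_cases hm : m ∈ A
      · have hmn : m ≠ n := by
          rintro rfl
          exact hn hm
        rw [if_pos hm, if_pos hm, if_neg (by push_cast; omega), if_neg (by push_cast; omega)]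
      · rw [if_neg hm, if_neg hm]
    · simp [a]

theorem central {z : E A} (hF : z.F = 0) (hs : z.s = 0) (g : E A) : z * g = g * z := by
  ext1
  · simp [hF, hs, T_zero]
  · simp [hF, B_zero_left, B_zero_right, add_comm]
  · simp [hs]

/-- the cursor -/
noncomputable def q (A : Set ℕ) : E A →* Multiplicative ℤ where
  toFun x := Multiplicative.ofAdd x.s
  map_one' := rfl
  map_mul' _ _ := rfl

/-- the map to the wreath product -/
noncomputable def pr (A : Set ℕ) : E A →* W where
  toFun x := ⟨x.F, x.s⟩
  map_one' := rfl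
  map_mul' _ _ := rfl

end E

/-- the group generated by the two elements -/
noncomputable def GA (A : Set ℕ) : Subgroup (E A) := Subgroup.closure {E.t A, E.a A}

/-- the first generator -/
noncomputable def tt (A : Set ℕ) : GA A := ⟨E.t A, Subgroup.subset_closure (by simp)⟩

/-- the second generator -/
noncomputable def aa (A : Set ℕ) : GA A := ⟨E.a A, Subgroup.subset_closure (by simp)⟩

lemma closure_gens (A : Set ℕ) : Subgroup.closure ({tt A, aa A} : Set (GA A)) = ⊤ := by
  have h := Subgroup.closure_closure_coe_preimage (k := ({E.t A, E.a A} : Set (E A)))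
  have e : ((fun x : GA A => (x : E A)) ⁻¹' {E.t A, E.a A}) = {tt A, aa A} := by
    ext x
    simp only [Set.mem_preimage, Set.mem_insert_iff, Set.mem_singleton_iff, tt, aa,
      Subtype.ext_iff]
  rw [← e]
  exact h

lemma countable_GA (A : Set ℕ) : Countable (GA A) := by
  have h1 : Countable (FreeGroup Bool) := inferInstanceAs (Countable (Quot _))
  set f : Bool → E A := fun b => if b then E.t A else E.a A with hf
  have h2 : Set.range f = {E.t A, E.a A} := by
    ext x
    simp only [Set.mem_range, Bool.exists_bool, hf, Set.mem_insert_iff, Set.mem_singleton_iff,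
      Bool.false_eq_true, if_false, if_true]
    constructor
    · rintro (h | h)
      · exact Or.inr h.symm
      · exact Or.inl h.symm
    · rintro (h | h)
      · exact Or.inr h.symm
      · exact Or.inl h.symm
  have h3 : (FreeGroup.lift f).range = GA A := by
    rw [FreeGroup.range_lift_eq_closure, h2]
    rfl
  rw [← h3]
  exact (Set.countable_range (FreeGroup.lift f)).to_subtype

/-- the cursor of the elements of the group -/
noncomputable def qA (A : Set ℕ) : GA A →* Multiplicative ℤ := (E.q A).comp (GA A).subtype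

/-- the map of the group to the wreath product -/
noncomputable def prA (A : Set ℕ) : GA A →* W := (E.pr A).comp (GA A).subtype

lemma qA_surj (A : Set ℕ) : Function.Surjective (qA A) := by
  intro m
  refine ⟨(tt A) ^ (Multiplicative.toAdd m), ?_⟩
  rw [map_zpow]
  have e : qA A (tt A) = Multiplicative.ofAdd 1 := rfl
  rw [e, ← ofAdd_zsmul]
  simp

lemma prA_surj (A : Set ℕ) : Function.Surjective (prA A) := by
  rw [← MonoidHom.range_eq_top]
  exact closure_ta _ ⟨tt A, rfl⟩ ⟨aa A, rfl⟩

lemma comm_of_s (x y : W) (hx : x.s = 0) (hy : y.s = 0) : x * y = y * x := by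
  ext1
  · simp only [W.mul_F, hx, hy, LaurentPolynomial.T_zero, one_mul]
    ring
  · simp only [W.mul_s]
    ring

lemma s_of_mem (A : Set ℕ) {g : GA A} (hg : g ∈ (qA A).ker) : (g : E A).s = 0 := by
  have h1 : Multiplicative.ofAdd (g : E A).s = 1 := hg
  exact h1

lemma prA_central (A : Set ℕ) {z : GA A} (hz : prA A z = 1) (g : GA A) : z * g = g * z := by
  have h1 : (⟨(z : E A).F, (z : E A).s⟩ : W) = 1 := hz
  refine Subtype.ext ?_
  exact E.central (congrArg W.F h1) (congrArg W.s h1) _

lemma fcNil_GA (A : Set ℕ) : FCNil (qA A).ker := by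
  refine ⟨2, fun i => if i = 0 then ⊥ else if i = 1 then (prA A).ker else (qA A).ker, by simp,
    by simp, fun i hi => ?_⟩
  have hle : (prA A).ker ≤ (qA A).ker := by
    intro z hz
    have h1 : (⟨(z : E A).F, (z : E A).s⟩ : W) = 1 := hz
    rw [MonoidHom.mem_ker]
    show Multiplicative.ofAdd (z : E A).s = 1
    have h2 : (z : E A).s = 0 := congrArg W.s h1
    rw [h2]
    rfl
  have hi2 : i = 0 ∨ i = 1 := by omega
  rcases hi2 with rfl | rfl
  · refine ⟨by simpa using hle, fun a ha => ⟨{a}, fun g _ => ?_⟩⟩
    refine ⟨a, Finset.mem_singleton_self _, 1, by simp, ?_⟩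
    have ha' : prA A a = 1 := by simpa using ha
    rw [mul_assoc, prA_central A ha', inv_mul_cancel_left, mul_one]
  · refine ⟨by simp, fun a ha => ⟨{a}, fun g hg => ?_⟩⟩
    refine ⟨a, Finset.mem_singleton_self _, a⁻¹ * (g⁻¹ * a * g), ?_, ?_⟩
    · simp only [one_ne_zero, if_false, if_true]
      have ha' : a ∈ (qA A).ker := by simpa using ha
      rw [MonoidHom.mem_ker]
      have h1 := comm_of_s (prA A a) (prA A g) (s_of_mem A ha') (s_of_mem A hg)
      simp only [map_mul, map_inv]
      rw [mul_assoc, h1]
      group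
    · rw [mul_inv_cancel_left]

/-- the set `A` may be read off the images of the generators under an isomorphism -/
lemma mem_iff_of_iso {A A' : Set ℕ} (φ : GA A ≃* GA A') (n : ℕ) :
    n ∉ A ↔ Commute (φ (aa A))
      ((φ (tt A)) ^ (n + 1) * φ (aa A) * ((φ (tt A)) ^ (n + 1))⁻¹) := by
  rw [← E.commute_iff]
  have e : (φ (tt A)) ^ (n + 1) * φ (aa A) * ((φ (tt A)) ^ (n + 1))⁻¹ =
      φ ((tt A) ^ (n + 1) * aa A * ((tt A) ^ (n + 1))⁻¹) := by
    simp only [map_mul, map_pow, map_inv]
  rw [e]
  constructor
  · intro h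
    have h1 : Commute (aa A) ((tt A) ^ (n + 1) * aa A * ((tt A) ^ (n + 1))⁻¹) :=
      Subtype.ext h.eq
    exact h1.map φ
  · intro h
    have h1 : aa A * ((tt A) ^ (n + 1) * aa A * ((tt A) ^ (n + 1))⁻¹) =
        ((tt A) ^ (n + 1) * aa A * ((tt A) ^ (n + 1))⁻¹) * aa A := by
      apply φ.injective
      rw [map_mul, map_mul φ _ (aa A)]
      exact h.eq
    exact congrArg Subtype.val h1

lemma iso_countable (A' : Set ℕ) : {A : Set ℕ | Nonempty (GA A ≃* GA A')}.Countable := by
  have hc := countable_GA A'
  rw [← Set.countable_coe_iff]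
  set φ : ∀ A : {A : Set ℕ | Nonempty (GA A ≃* GA A')}, GA (A : Set ℕ) ≃* GA A' :=
    fun A => A.2.some with hφ
  have hinj : Function.Injective (fun A : {A : Set ℕ | Nonempty (GA A ≃* GA A')} =>
      (φ A (tt (A : Set ℕ)), φ A (aa (A : Set ℕ)))) := by
    intro A1 A2 h
    simp only [Prod.mk.injEq] at h
    refine Subtype.ext ?_
    ext n
    have h1 := mem_iff_of_iso (φ A1) n
    have h2 := mem_iff_of_iso (φ A2) n
    rw [h.1, h.2, ← h2] at h1
    exact not_iff_not.1 h1
  exact hinj.countable

open Cardinal in
lemma mk_quot (r : Setoid (Set ℕ)) (hr : ∀ A', {A | r A A'}.Countable) :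
    Cardinal.mk (Quotient r) = Cardinal.continuum := by
  have hset : Cardinal.mk (Set ℕ) = Cardinal.continuum := by
    rw [Cardinal.mk_set, Cardinal.mk_nat, Cardinal.two_power_aleph0]
  apply le_antisymm
  · rw [← hset]
    exact Cardinal.mk_quotient_le
  · by_contra hcon
    push Not at hcon
    have h1 : Cardinal.mk (Set ℕ) = Cardinal.mk (Σ i : Quotient r, {A // Quotient.mk r A = i}) :=
      Cardinal.mk_congr (Equiv.sigmaFiberEquiv (Quotient.mk r)).symm
    have h2 : Cardinal.mk (Σ i : Quotient r, {A // Quotient.mk r A = i}) ≤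
        Cardinal.mk (Quotient r) * ℵ₀ := by
      rw [Cardinal.mk_sigma, ← Cardinal.sum_const']
      apply Cardinal.sum_le_sum
      intro i
      obtain ⟨A', rfl⟩ := Quotient.exists_rep i
      have h3 : Countable {A // Quotient.mk r A = Quotient.mk r A'} := by
        have h4 := hr A'
        rw [← Set.countable_coe_iff] at h4
        refine Function.Injective.countable (f := fun A : {A // Quotient.mk r A =
          Quotient.mk r A'} => (⟨A.1, Quotient.exact A.2⟩ : {A | r A A'})) ?_
        intro A1 A2 h
        simp only [Subtype.mk.injEq] at h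
        exact Subtype.ext h
      exact Cardinal.mk_le_aleph0
    have h3 : Cardinal.mk (Quotient r) * ℵ₀ < Cardinal.continuum :=
      Cardinal.mul_lt_of_lt Cardinal.aleph0_le_continuum hcon Cardinal.aleph0_lt_continuum
    rw [← h1, hset] at h2
    exact absurd h2 (not_le.2 h3)

end Pool.Agent.Y889.AR
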